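import Mathlib

set_option autoImplicit false

namespace Pool.Agent.Results.MP_2fa8e1_co.No

open Finset

variable {G : Type*} [Group G] [DecidableEq G]

/-- `(n, m, k, 1)`-SEDF in `G` -/
def IsSEDF {m : ℕ} (k : ℕ) (A : Fin m → Finset G) : Prop :=
  (∀ i j, i ≠ j → Disjoint (A i) (A j)) ∧ (∀ i, (A i).card = k) ∧
    ∀ i, ∀ g ≠ 1, ∑ j ∈ univ.erase i, ((A i ×ˢ A j).filter fun p => p.1 * p.2⁻¹ = g).card = 1

def M (A : Finset G) : Matrix G G ℚ := fun g h => if g⁻¹ * h ∈ A then 1 else 0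

theorem cnt [Fintype G] (S : Finset (G × G)) (f : G → G × G) (hf : Function.Injective f)
    (p q : G → Prop) [DecidablePred p] [DecidablePred q] (h1 : ∀ t, p t ∧ q t → f t ∈ S)
    (h2 : ∀ s ∈ S, ∃ t, (p t ∧ q t) ∧ f t = s) :
    ∑ t, (if p t then (1 : ℚ) else 0) * (if q t then 1 else 0) = S.card := by
  simp only [ite_zero_mul_ite_zero, mul_one, sum_boole]
  congr 1
  exact card_bij (fun t _ => f t) (fun t ht => h1 t (mem_filter.1 ht).2) (fun _ _ _ _ e => hf e)
    fun s hs => by obtain ⟨t, h, e⟩ := h2 s hs; exact ⟨t, by simp [h], e⟩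

theorem near [Fintype G] (A B : Finset G) (hd : Disjoint A B)
    (h : ∀ g ≠ 1, ((A ×ˢ B).filter fun p => p.1 * p.2⁻¹ = g).card = 1) (g : G) (hg : g ≠ 1) :
    ((A ×ˢ B).filter fun p => p.2⁻¹ * p.1 = g).card = 1 := by
  let J : Matrix G G ℚ := fun _ _ => 1
  have hn : (Fintype.card G : ℚ) - 1 ≠ 0 := by
    have : 1 < Fintype.card G := Fintype.one_lt_card_iff.2 ⟨g, 1, hg⟩
    have : (1 : ℚ) < Fintype.card G := by exact_mod_cast this
    linarith
  have h1 : M A * (M B).transpose = J - 1 := by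
    ext a b
    rw [Matrix.mul_apply]
    refine (cnt ((A ×ˢ B).filter fun p => p.1 * p.2⁻¹ = a⁻¹ * b) (fun t => (a⁻¹ * t, b⁻¹ * t))
      (fun s t e => mul_left_cancel (congrArg Prod.fst e)) _ _ (fun t ht => by simpa using ht)
      fun s hs => ?_).trans ?_
    · simp only [mem_filter, mem_product] at hs
      have : b⁻¹ * (a * s.1) = s.2 := by
        rw [show s.1 = a⁻¹ * b * s.2 by rw [← hs.2]; group]; group
      exact ⟨a * s.1, by simp [this, hs.1], by simp [this]⟩
    · by_cases e : a = b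
      · subst e
        rw [filter_eq_empty_iff.2, Matrix.sub_apply, Matrix.one_apply_eq]
        · simp [J]
        · intro p hp e
          rw [inv_mul_cancel, mul_inv_eq_one] at e
          exact disjoint_left.1 hd (mem_product.1 hp).1 (e ▸ (mem_product.1 hp).2)
      · rw [h _ (by rwa [Ne, inv_mul_eq_one]), Matrix.sub_apply, Matrix.one_apply_ne e]
        simp [J]
  have hJ : J * J = (Fintype.card G : ℚ) • J := by ext a b; simp [Matrix.mul_apply, J]
  have hA : M A * J = J * M A := by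
    ext a b
    simp only [Matrix.mul_apply, J, M, mul_one, one_mul]
    rw [← Equiv.sum_comp (Equiv.mulLeft a), eq_comm,
      ← Equiv.sum_comp ((Equiv.inv G).trans (Equiv.mulLeft b))]
    simp
  let U : Matrix G G ℚ := ((Fintype.card G : ℚ) - 1)⁻¹ • J - 1
  have hU : (J - 1) * U = 1 := by
    simp only [U, sub_mul, mul_sub, Matrix.mul_smul, hJ, one_mul, mul_one, smul_smul]
    have : ((Fintype.card G : ℚ) - 1)⁻¹ * Fintype.card G = 1 + ((Fintype.card G : ℚ) - 1)⁻¹ := by
      field_simp; ring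
    rw [this, add_smul, one_smul]; abel
  have hAU : U * M A = M A * U := by
    simp only [U, sub_mul, mul_sub, Matrix.mul_smul, Matrix.smul_mul, hA, one_mul, mul_one]
  have h2 : (M B).transpose * U * M A = 1 :=
    mul_eq_one_comm.1 (by rw [← mul_assoc, h1, hU])
  have h3 : (M B).transpose * M A = J - 1 := by
    rw [mul_assoc, hAU, ← mul_assoc] at h2
    have h7 := congrArg (· * (J - 1)) h2
    simpa only [mul_assoc _ U, mul_eq_one_comm.1 hU, mul_one, one_mul] using h7
  have h4 := congrFun (congrFun h3 1) g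
  rw [Matrix.mul_apply, Matrix.sub_apply, Matrix.one_apply_ne hg.symm] at h4
  have h5 := cnt ((A ×ˢ B).filter fun p => p.2⁻¹ * p.1 = g) (fun t => (t⁻¹ * g, t⁻¹ * 1))
    (fun s t e => by simpa using congrArg Prod.snd e) (fun t => t⁻¹ * 1 ∈ B)
    (fun t => t⁻¹ * g ∈ A) (fun t ht => by simpa using ht.symm) fun s hs => by
      simp only [mem_filter, mem_product] at hs
      exact ⟨s.2⁻¹, by simp [← hs.2, hs.1], by simp [← hs.2]⟩
  have h6 := h5.symm.trans h4
  simp only [J, sub_zero] at h6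
  exact_mod_cast h6

theorem result [Finite G] (m k : ℕ) (hm : 3 ≤ m) (hk : 2 ≤ k) (A : Fin m → Finset G) :
    ¬ IsSEDF k A := by
  rintro ⟨hd, hc, h⟩
  have := Fintype.ofFinite G
  let B : Fin m → Finset G := fun i => (univ.erase i).biUnion A
  have mB : ∀ i y, y ∈ B i ↔ ∃ j, j ≠ i ∧ y ∈ A j := by simp [B]
  have dB : ∀ i, Disjoint (A i) (B i) := fun i => disjoint_left.2 fun y h1 h2 => by
    obtain ⟨j, hj, h3⟩ := (mB i y).1 h2
    exact disjoint_left.1 (hd j i hj) h3 h1
  have L : ∀ i, ∀ g ≠ 1, ((A i ×ˢ B i).filter fun p => p.1 * p.2⁻¹ = g).card = 1 := by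
    intro i g hg
    rw [← h i g hg, ← card_biUnion]
    · congr 1
      ext p
      simp only [mem_filter, mem_product, mB, mem_biUnion, mem_erase, mem_univ, and_true]
      tauto
    · intro j _ l _ hjl
      exact disjoint_left.2 fun p h1 h2 => disjoint_left.1 (hd j l hjl)
        (mem_product.1 (mem_filter.1 h1).1).2 (mem_product.1 (mem_filter.1 h2).1).2
  have R := fun i => near _ _ (dB i) (L i)
  let a : Fin m := ⟨0, by omega⟩
  obtain ⟨x, hx, x', hx', hne⟩ := one_lt_card.1 (show 1 < (A a).card by rw [hc]; omega)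
  have hg : x'⁻¹ * x ≠ 1 := fun e => hne (inv_mul_eq_one.1 e).symm
  have key : ∀ i, i ≠ a → ∃ u ∈ A i, ∃ y ∈ A a, y⁻¹ * u = x'⁻¹ * x := by
    intro i hi
    obtain ⟨p, hp⟩ := card_pos.1 (show 0 < _ by rw [R i _ hg]; omega)
    simp only [mem_filter, mem_product, mB] at hp
    obtain ⟨⟨h1, j, -, h2⟩, h3⟩ := hp
    by_cases hj : j = a
    · exact ⟨_, h1, _, hj ▸ h2, h3⟩
    · have b1 : p.1 ∈ B a := (mB _ _).2 ⟨i, hi, h1⟩
      have b2 : p.2 ∈ B a := (mB _ _).2 ⟨j, hj, h2⟩
      have h4 : x * p.1⁻¹ ≠ 1 := fun e => disjoint_left.1 (dB a) hx (mul_inv_eq_one.1 e ▸ b1)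
      have := card_le_one.1 (L a _ h4).le (x, p.1) (by simp [hx, b1]) (x', p.2) (by
        simp only [mem_filter, mem_product, hx', b2, true_and]
        rw [show x = x' * (p.2⁻¹ * p.1) by rw [h3]; group]; group)
      exact absurd (congrArg Prod.fst this) hne
  obtain ⟨u, hu, y, hy, e⟩ := key ⟨1, by omega⟩ (by simp [a])
  obtain ⟨w, hw, z, hz, e'⟩ := key ⟨2, by omega⟩ (by simp [a])
  have := card_le_one.1 (R a _ (inv_ne_one.2 hg)).le (y, u) (by
      simp only [mem_filter, mem_product, hy, mB, true_and]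
      exact ⟨⟨_, by simp [a], hu⟩, by rw [← e]; group⟩) (z, w) (by
      simp only [mem_filter, mem_product, hz, mB, true_and]
      exact ⟨⟨_, by simp [a], hw⟩, by rw [← e']; group⟩)
  obtain rfl : u = w := congrArg Prod.snd this
  exact disjoint_left.1 (hd _ _ (by simp)) hu hw

end Pool.Agent.Results.MP_2fa8e1_co.No
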